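import Pool.Agent.MP_ca0a54_nt.H10.QB

/-! Row QID: the quadratic contour identity. -/

open Complex MeasureTheory Filter Topology

namespace Pool.Agent.MP_ca0a54_nt.H10

open Pool.Agent.MP_ca0a54_nt.H24

theorem bd_rat (c₀ : ℝ) (U : Finset ℝ) (ρ v : ℝ → ℝ) {γ : ℝ} (hγ : γ ≠ 0) :
    Bd (rat c₀ U ρ v) γ γ :=
  (Bd.const (c₀ : ℂ) γ γ).add (Bd.sum U (F := fun u z => (ρ u : ℂ) / (z - (v u : ℂ))) fun u _ =>
    (Bd.const (ρ u : ℂ) γ γ).mul (bd_inv (v u) γ hγ))

theorem li_rat (c₀ : ℝ) (U : Finset ℝ) (ρ v : ℝ → ℝ) {W : ℂ → ℂ} {γ : ℝ} (hγ : γ ≠ 0)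
    (hW : Bd W γ γ) (t : ℝ) :
    li (fun z => rat c₀ U ρ v z * W z) t γ = c₀ * li W t γ +
      ∑ u ∈ U, (ρ u : ℂ) * li (fun z => (z - (v u : ℂ))⁻¹ * W z) t γ := by
  have h1 : ∀ u ∈ U, Bd (fun z => (ρ u : ℂ) * ((z - (v u : ℂ))⁻¹ * W z)) γ γ := fun u _ =>
    (Bd.const _ γ γ).mul ((bd_inv (v u) γ hγ).mul hW)
  have h2 : (fun z => rat c₀ U ρ v z * W z) =
      fun z => c₀ * W z + ∑ u ∈ U, (ρ u : ℂ) * ((z - (v u : ℂ))⁻¹ * W z) := by
    funext z
    unfold rat
    rw [add_mul, Finset.sum_mul]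
    simp only [div_eq_mul_inv, mul_assoc]
  rw [h2, li_add ((Bd.const _ γ γ).mul hW) (Bd.sum U h1), li_smul, li_sum U h1]
  simp only [li_smul]

theorem im_li (hs : ShiftStmt) (hp : PoleStmt) (c₀ : ℝ) (U : Finset ℝ) (ρ v : ℝ → ℝ) (r : ℕ → ℂ)
    (N : ℕ) {c : ℝ} (hc : 0 < c) (t : ℝ) :
    (li (fun z => rat c₀ U ρ v z * (dp r N z * Rs r N z)) t (-c)).im =
      Real.pi * ∑ u ∈ U, ρ u * ‖dp r N (v u)‖ ^ 2 * Real.exp (-(v u - t) ^ 2) := by
  have hW : ∀ a b, Bd (fun z => dp r N z * Rs r N z) a b := fun a b =>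
    (bd_dp r N a b).mul (bd_Rs r N a b)
  have h1 := li_conj (F := fun z => rat c₀ U ρ v z * (dp r N z * Rs r N z)) (fun z => by
    rw [map_mul, map_mul, conj_dp, conj_Rs, mul_comm (Rs r N _)]
    congr 1
    unfold rat
    simp only [map_add, map_sum, map_div₀, map_sub, conj_ofReal]) t c
  have h2 := sub_conj (li (fun z => rat c₀ U ρ v z * (dp r N z * Rs r N z)) t (-c))
  rw [h1] at h2
  have h3 : li (fun z => rat c₀ U ρ v z * (dp r N z * Rs r N z)) t (-c) -
      li (fun z => rat c₀ U ρ v z * (dp r N z * Rs r N z)) t c =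
      ((2 * (Real.pi * ∑ u ∈ U, ρ u * ‖dp r N (v u)‖ ^ 2 * Real.exp (-(v u - t) ^ 2)) : ℝ) : ℂ) *
        I := by
    rw [li_rat c₀ U ρ v (neg_ne_zero.2 hc.ne') (hW _ _), li_rat c₀ U ρ v hc.ne' (hW _ _),
      li_shift hs (by linarith : -c ≤ c) (hW _ _), add_sub_add_left_eq_sub,
      ← Finset.sum_sub_distrib]
    push_cast
    rw [Finset.mul_sum, Finset.mul_sum, Finset.sum_mul]
    refine Finset.sum_congr rfl fun u _ => ?_
    have h4 : Rs r N (v u) = (starRingEnd ℂ) (dp r N (v u)) := by rw [conj_dp, conj_ofReal]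
    rw [← mul_sub, li_pole hp hc (hW _ _), h4, mul_conj, normSq_eq_norm_sq, ga]
    push_cast
    ring
  rw [h3] at h2
  have h5 := ofReal_injective (mul_right_cancel₀ I_ne_zero h2)
  linarith

theorem li_real (P : ℂ → ℂ) (r : ℕ → ℂ) (N : ℕ) (t : ℝ) :
    li (fun z => P z * Rs r N z) t 0 =
      ∫ x : ℝ, P (t + x : ℝ) * (starRingEnd ℂ) (dp r N (t + x : ℝ)) * (Real.exp (-x ^ 2) : ℝ) := by
  unfold li
  rw [← integral_add_left_eq_self _ t]
  congr 1
  funext x
  rw [conj_dp, conj_ofReal, ofReal_zero, zero_mul, add_zero, ga]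
  congr 1
  push_cast
  congr 1
  ring

theorem qid : ShiftStmt → PoleStmt → QidStmt := by
  intro hs hp ε hε hε2
  set c : ℝ := 1 / 2 + ε / 8 with hcd
  set H : ℝ := 2 + 16 / ε with hHd
  have hH : 2 ≤ H := le_add_of_nonneg_right (by positivity)
  have hc : 0 < c := by positivity
  have e1 := Real.tendsto_log_atTop.eventually
    (ev_pow (2 * 2 * Real.exp (c ^ 2) * K0) (ε / 4) (by positivity) 4)
  have e2 := Real.tendsto_log_atTop.eventually
    (ev_pow (2 * 2 * Real.exp ((c + H) ^ 2) * K0) (1 / 2) (by norm_num) 2)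
  filter_upwards [e1, e2, Real.tendsto_log_atTop.eventually (eventually_ge_atTop 1),
    eventually_gt_atTop (0 : ℝ)] with T hT1 hT2 hL hT N N₂ hN hNT hN₂ _ t c₀ U ρ v d r hr hA
  set L := Real.log T with hLd
  have hNp : (0 : ℝ) < N := Nat.cast_pos.2 hN
  have hlN : Real.log N ≤ (1 - ε) * L := by
    rw [hLd, ← Real.log_rpow hT]
    exact Real.log_le_log hNp hNT
  have hl0 := Real.log_natCast_nonneg N
  have hεL : 0 < ε * L := by positivity
  have hN₂1 : 1 ≤ N₂ := by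
    rcases Nat.eq_zero_or_pos N₂ with h | h
    · rw [h, Nat.cast_zero, Real.log_zero] at hN₂
      linarith
    · exact h
  have hD : ∀ a, Bd (fun z => LSeries d (1 / 2 + I * z)) a (-c) :=
    bd_D hA.hd (by rw [hcd]; linarith)
  have hR := bd_dp r N
  have hS := bd_Rs r N
  have hP := bd_dp (cv d (cut r N)) N₂
  have b1 : Bd (fun z => (rat c₀ U ρ v z - LSeries d (1 / 2 + I * z)) * (dp r N z * Rs r N z))
      (-c) (-c) := ((bd_rat c₀ U ρ v (neg_ne_zero.2 hc.ne')).sub (hD _)).mul ((hR _ _).mul (hS _ _))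
  have b2 : ∀ a, Bd (fun z => (LSeries d (1 / 2 + I * z) * dp r N z - dp (cv d (cut r N)) N₂ z) *
      Rs r N z) a (-c) := fun a => (((hD a).mul (hR _ _)).sub (hP _ _)).mul (hS _ _)
  have b3 : ∀ a b, Bd (fun z => dp (cv d (cut r N)) N₂ z * Rs r N z) a b := fun a b =>
    (hP a b).mul (hS a b)
  have hsplit : (fun z => rat c₀ U ρ v z * (dp r N z * Rs r N z)) = fun z =>
      ((rat c₀ U ρ v z - LSeries d (1 / 2 + I * z)) * (dp r N z * Rs r N z) +
        (LSeries d (1 / 2 + I * z) * dp r N z - dp (cv d (cut r N)) N₂ z) * Rs r N z) +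
        dp (cv d (cut r N)) N₂ z * Rs r N z := by
    funext z
    ring
  rw [← im_li hs hp c₀ U ρ v r N hc t, ← li_real, hsplit, li_add (b1.add (b2 _)) (b3 _ _),
    li_add b1 (b2 _), li_shift hs (by linarith : -c ≤ 0) (b3 _ _),
    ← li_shift hs (by linarith : -(c + H) ≤ -c) (b2 _), add_im, add_sub_cancel_right]
  refine (abs_im_le_norm _).trans ((norm_add_le _ _).trans ?_)
  have k1 := li_bound (F := fun z => (rat c₀ U ρ v z - LSeries d (1 / 2 + I * z)) *
      (dp r N z * Rs r N z)) (γ := -c) (t := t)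
      (B := L ^ 3 / T * (2 * L * Real.exp ((1 - 7 * ε / 8) * L))) fun x => by
    have h1 := hA.app x
    have h2 : (x : ℂ) + ((-c : ℝ) : ℂ) * I = x - ((1 / 2 + ε / 8 : ℝ) : ℂ) * I := by
      rw [ofReal_neg, neg_mul, sub_eq_add_neg]
    have h3 : ((x : ℂ) + ((-c : ℝ) : ℂ) * I).im = -c := by simp
    have h4 := norm_dp hr N ((x : ℂ) + ((-c : ℝ) : ℂ) * I) (by rw [h3, hcd]; linarith)
    have h5 := norm_Rs hr hN ((x : ℂ) + ((-c : ℝ) : ℂ) * I) (by rw [h3, hcd]; linarith)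
    rw [← h2] at h1
    rw [h3] at h5
    have h6 : (1 / 2 - -c) * Real.log N ≤ (1 - 7 * ε / 8) * L := by
      rw [hcd]
      nlinarith [mul_le_mul_of_nonneg_left hlN (by positivity : 0 ≤ 1 + ε / 8),
        mul_pos hε hεL]
    rw [norm_mul, norm_mul, mul_right_comm]
    refine mul_le_mul h1 (mul_le_mul (h4.trans (by linarith)) (h5.trans (Real.exp_le_exp.2 h6))
      (norm_nonneg _) (by positivity)) (by positivity) (by positivity)
  have k2 := li_bound (F := fun z => (LSeries d (1 / 2 + I * z) * dp r N z -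
      dp (cv d (cut r N)) N₂ z) * Rs r N z) (γ := -(c + H)) (t := t)
      (B := 2 * L ^ 2 * Real.exp (-(3 / 4) * L)) fun x => by
    have h3 : ((x : ℂ) + ((-(c + H) : ℝ) : ℂ) * I).im = -(c + H) := by simp
    have h4 := tail_bound (by positivity) (by positivity) hH hA.hd hr N N₂ hN₂1
      ((x : ℂ) + ((-(c + H) : ℝ) : ℂ) * I) (by rw [h3, hcd]; linarith)
    have h5 := norm_Rs hr hN ((x : ℂ) + ((-(c + H) : ℝ) : ℂ) * I) (by rw [h3]; linarith)
    rw [h3] at h5
    have h6 : (2 - H) * Real.log N₂ + (1 / 2 - -(c + H)) * Real.log N ≤ -(3 / 4) * L := by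
      have h7 : (H - 2) * (ε * L / 4) = 4 * L := by
        rw [hHd]
        field_simp
        ring
      have h8 := mul_le_mul_of_nonneg_left hN₂ (sub_nonneg.2 hH)
      have h9 : Real.log N ≤ L := by linarith
      have h10 : ε * Real.log N ≤ 1 / 2 * L := mul_le_mul hε2 h9 hl0 (by norm_num)
      rw [hcd]
      nlinarith
    rw [norm_mul]
    refine (mul_le_mul h4 h5 (norm_nonneg _) (by positivity)).trans ?_
    rw [mul_assoc, ← Real.exp_add]
    refine (mul_le_mul_of_nonneg_left (Real.exp_le_exp.2 h6) (by positivity)).trans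
      (le_mul_of_one_le_right (by positivity) (Real.one_le_exp (by positivity)))
  refine (add_le_add k1 k2).trans ?_
  rw [Real.rpow_def_of_pos hT, ← hLd, neg_sq, neg_sq]
  have hTe : T = Real.exp L := (Real.exp_log hT).symm
  have m1 : L ^ 3 / T * (2 * L * Real.exp ((1 - 7 * ε / 8) * L)) * Real.exp (c ^ 2) * K0 ≤
      Real.exp (L * -(ε / 2)) / 2 := by
    have h1 : Real.exp ((1 - 7 * ε / 8) * L) = T * Real.exp (-(7 * ε / 8) * L) := by
      rw [hTe, ← Real.exp_add]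
      congr 1
      ring
    have h2 : Real.exp (ε / 4 * L) * Real.exp (-(7 * ε / 8) * L) ≤ Real.exp (L * -(ε / 2)) := by
      rw [← Real.exp_add]
      exact Real.exp_le_exp.2 (by linarith)
    have h3 := mul_le_mul_of_nonneg_right hT1 (Real.exp_pos (-(7 * ε / 8) * L)).le
    have h4 : L ^ 3 / T * (2 * L * (T * Real.exp (-(7 * ε / 8) * L))) * Real.exp (c ^ 2) * K0 =
        2 * 2 * Real.exp (c ^ 2) * K0 * L ^ 4 * Real.exp (-(7 * ε / 8) * L) / 2 := by
      field_simp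
    rw [h1, h4]
    linarith
  have m2 : 2 * L ^ 2 * Real.exp (-(3 / 4) * L) * Real.exp ((c + H) ^ 2) * K0 ≤
      Real.exp (L * -(ε / 2)) / 2 := by
    have h2 : Real.exp (1 / 2 * L) * Real.exp (-(3 / 4) * L) ≤ Real.exp (L * -(ε / 2)) := by
      rw [← Real.exp_add]
      exact Real.exp_le_exp.2 (by nlinarith)
    have h3 := mul_le_mul_of_nonneg_right hT2 (Real.exp_pos (-(3 / 4) * L)).le
    linarith
  linarith

end Pool.Agent.MP_ca0a54_nt.H10
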