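import Pool.Agent.MP_ca0a54_nt.H10.QA

/-! Dirichlet polynomials and series on strips. -/

open Complex MeasureTheory Filter Topology

namespace Pool.Agent.MP_ca0a54_nt.H10

open Pool.Agent.MP_ca0a54_nt.H24

theorem term_eq (f : ℕ → ℂ) (s : ℂ) {n : ℕ} (hn : n ≠ 0) : LSeries.term f s n = f n * np s n := by
  rw [LSeries.term_of_ne_zero hn, np, cpow_def_of_ne_zero (Nat.cast_ne_zero.2 hn), div_eq_mul_inv,
    ← exp_neg, natCast_log]
  congr 2
  ring

theorem bd_dp (c : ℕ → ℂ) (N : ℕ) (a b : ℝ) : Bd (dp c N) a b :=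
  Bd.sum (Finset.Icc 1 N) (F := fun n z => c n * np (1 / 2 + I * z) n) fun n _ =>
    (Bd.const (c n) a b).mul (bd_np (1 / 2) I I_re n a b)

/-- The reflected polynomial. -/
noncomputable def Rs (r : ℕ → ℂ) (N : ℕ) (z : ℂ) : ℂ :=
  ∑ n ∈ Finset.Icc 1 N, (starRingEnd ℂ) (r n) * np (1 / 2 + -I * z) n

theorem bd_Rs (r : ℕ → ℂ) (N : ℕ) (a b : ℝ) : Bd (Rs r N) a b :=
  Bd.sum (Finset.Icc 1 N) (F := fun n z => (starRingEnd ℂ) (r n) * np (1 / 2 + -I * z) n)
    fun n _ => (Bd.const _ a b).mul (bd_np (1 / 2) (-I) (by simp) n a b)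

theorem conj_np (z : ℂ) (n : ℕ) : (starRingEnd ℂ) (np z n) = np ((starRingEnd ℂ) z) n := by
  unfold np
  rw [← exp_conj, map_mul, map_neg, conj_ofReal]

theorem conj_half : (starRingEnd ℂ) (1 / 2 : ℂ) = 1 / 2 := by
  rw [map_div₀, map_one, map_ofNat]

theorem conj_dp (r : ℕ → ℂ) (N : ℕ) (z : ℂ) :
    (starRingEnd ℂ) (dp r N z) = Rs r N ((starRingEnd ℂ) z) := by
  unfold dp ds Rs
  rw [map_sum]
  refine Finset.sum_congr rfl fun n _ => ?_
  rw [map_mul, conj_np, map_add, map_mul, conj_I, conj_half]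

theorem conj_Rs (r : ℕ → ℂ) (N : ℕ) (z : ℂ) :
    (starRingEnd ℂ) (Rs r N z) = dp r N ((starRingEnd ℂ) z) := by
  have := conj_dp r N ((starRingEnd ℂ) z)
  rw [conj_conj] at this
  rw [← this, conj_conj]

theorem hasSum_cut (r : ℕ → ℂ) (N : ℕ) (z : ℂ) :
    HasSum (LSeries.term (cut r N) (1 / 2 + I * z)) (dp r N z) := by
  have h : dp r N z = ∑ n ∈ Finset.Icc 1 N, LSeries.term (cut r N) (1 / 2 + I * z) n := by
    unfold dp ds
    refine Finset.sum_congr rfl fun n hn => ?_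
    rw [Finset.mem_Icc] at hn
    rw [term_eq _ _ (by omega), cut, if_pos hn.2]
  rw [h]
  refine hasSum_sum_of_ne_finset_zero fun n hn => ?_
  rcases eq_or_ne n 0 with rfl | h0
  · exact LSeries.term_zero _ _
  · rw [Finset.mem_Icc] at hn
    rw [term_eq _ _ h0, cut, if_neg (by omega), zero_mul]

theorem re_s (z : ℂ) : (1 / 2 + I * z).re = 1 / 2 - z.im := by
  simp
  ring

theorem absc {d : ℕ → ℂ} {B η : ℝ} (hd : ∀ n : ℕ, ‖d n‖ ≤ B * Real.exp (η * Real.log n))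
    {s : ℂ} (hs : η + 1 < s.re) : LSeries.abscissaOfAbsConv d < s.re := by
  have h := LSeries.abscissaOfAbsConv_le_of_le_const_mul_rpow (f := d) (x := η) ⟨B, fun n hn => by
    rw [Real.rpow_def_of_pos (Nat.cast_pos.2 (Nat.pos_of_ne_zero hn)), mul_comm (Real.log n)]
    exact hd n⟩
  refine h.trans_lt ?_
  exact_mod_cast hs

theorem bd_D {d : ℕ → ℂ} {B η c : ℝ} (hd : ∀ n : ℕ, ‖d n‖ ≤ B * Real.exp (η * Real.log n))
    (hc : η + 1 / 2 < c) (a : ℝ) : Bd (fun z => LSeries d (1 / 2 + I * z)) a (-c) := by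
  have h1 : ∀ z ∈ St a (-c), 1 / 2 + c ≤ (1 / 2 + I * z).re := fun z hz => by
    rw [re_s]
    linarith [hz.2]
  have h0 : LSeriesSummable d ((1 / 2 + c : ℝ) : ℂ) :=
    LSeriesSummable_of_abscissaOfAbsConv_lt_re (absc hd (by rw [ofReal_re]; linarith))
  refine ⟨?_, ∑' n, ‖LSeries.term d ((1 / 2 + c : ℝ) : ℂ) n‖, tsum_nonneg fun _ => norm_nonneg _,
    fun z hz => ?_⟩
  · refine (LSeries_differentiableOn d).comp (Differentiable.differentiableOn (by fun_prop))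
      fun z hz => absc hd ?_
    linarith [h1 z hz]
  · exact tsum_of_norm_bounded h0.norm.hasSum fun n =>
      LSeries.norm_term_le_of_re_le_re d (by rw [ofReal_re]; exact h1 z hz) n

theorem norm_cv {d r : ℕ → ℂ} {B η : ℝ} (hB : 0 ≤ B) (hη : 0 ≤ η)
    (hd : ∀ n : ℕ, ‖d n‖ ≤ B * Real.exp (η * Real.log n)) (hr : ∀ n, ‖r n‖ ≤ 1) (N : ℕ) {n : ℕ}
    (hn : n ≠ 0) : ‖cv d (cut r N) n‖ ≤ B * Real.exp ((η + 1) * Real.log n) := by
  have hp : (0 : ℝ) < n := Nat.cast_pos.2 (Nat.pos_of_ne_zero hn)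
  have hcard : ((n.divisorsAntidiagonal.card : ℕ) : ℝ) ≤ n := by
    rw [← Nat.map_div_right_divisors, Finset.card_map]
    exact_mod_cast Nat.card_divisors_le_self n
  unfold cv
  rw [LSeries.convolution_def]
  refine (norm_sum_le _ _).trans ((Finset.sum_le_card_nsmul _ _ (B * Real.exp (η * Real.log n))
    fun p hp' => ?_).trans ?_)
  · have h1 : ‖cut r N p.2‖ ≤ 1 := by
      unfold cut
      split_ifs
      · exact hr _
      · simp
    have h2 : p.1 ∣ n := Nat.dvd_of_mem_divisors (Nat.fst_mem_divisors_of_mem_antidiagonal hp')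
    have h3 : (0 : ℝ) < p.1 := Nat.cast_pos.2 (Nat.pos_of_dvd_of_pos h2 (Nat.pos_of_ne_zero hn))
    have h4 : Real.log p.1 ≤ Real.log n :=
      Real.log_le_log h3 (Nat.cast_le.2 (Nat.le_of_dvd (Nat.pos_of_ne_zero hn) h2))
    rw [norm_mul]
    refine (mul_le_of_le_one_right (norm_nonneg _) h1).trans ((hd _).trans ?_)
    exact mul_le_mul_of_nonneg_left (Real.exp_le_exp.2 (mul_le_mul_of_nonneg_left h4 hη)) hB
  · rw [nsmul_eq_mul, add_mul, Real.exp_add, one_mul, Real.exp_log hp, mul_comm, ← mul_assoc]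
    exact mul_le_mul_of_nonneg_left hcard (by positivity)

theorem tail_bound {d r : ℕ → ℂ} {B η H : ℝ} (hB : 0 ≤ B) (hη : 0 ≤ η) (hH : 2 ≤ H)
    (hd : ∀ n : ℕ, ‖d n‖ ≤ B * Real.exp (η * Real.log n)) (hr : ∀ n, ‖r n‖ ≤ 1) (N N₂ : ℕ)
    (hN : 1 ≤ N₂) (z : ℂ) (hz : η + 1 + H ≤ 1 / 2 - z.im) :
    ‖LSeries d (1 / 2 + I * z) * dp r N z - dp (cv d (cut r N)) N₂ z‖ ≤
      2 * B * Real.exp ((2 - H) * Real.log N₂) := by
  have h0 : LSeriesSummable d (1 / 2 + I * z) :=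
    LSeriesSummable_of_abscissaOfAbsConv_lt_re (absc hd (by rw [re_s]; linarith))
  have h1 : HasSum (LSeries.term (cv d (cut r N)) (1 / 2 + I * z))
      (LSeries d (1 / 2 + I * z) * dp r N z) :=
    LSeriesHasSum.convolution h0.LSeriesHasSum (hasSum_cut r N z)
  have h2 := h1.sub (hasSum_cut (cv d (cut r N)) N₂ z)
  have h3 := hasSum_zeta_two.mul_left (B * Real.exp ((2 - H) * Real.log N₂))
  refine (h2.norm_le_of_bounded h3 fun n => ?_).trans ?_
  · rcases eq_or_ne n 0 with rfl | hn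
    · simp
    · have hp : (0 : ℝ) < n := Nat.cast_pos.2 (Nat.pos_of_ne_zero hn)
      rw [term_eq _ _ hn, term_eq _ _ hn, cut]
      split_ifs with h
      · rw [sub_self, norm_zero]
        positivity
      · rw [zero_mul, sub_zero, norm_mul, norm_np, re_s]
        refine (mul_le_mul_of_nonneg_right (norm_cv hB hη hd hr N hn) (Real.exp_pos _).le).trans ?_
        have h4 : 1 / (n : ℝ) ^ 2 = Real.exp (-2 * Real.log n) := by
          rw [neg_mul, Real.exp_neg, show (2 : ℝ) * Real.log n = Real.log n + Real.log n by ring,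
            Real.exp_add, Real.exp_log hp, one_div, pow_two]
        have h5 : Real.log N₂ ≤ Real.log n :=
          Real.log_le_log (Nat.cast_pos.2 hN) (Nat.cast_le.2 (by omega))
        have h6 := Real.log_natCast_nonneg n
        rw [h4, mul_assoc, mul_assoc, ← Real.exp_add, ← Real.exp_add]
        refine mul_le_mul_of_nonneg_left (Real.exp_le_exp.2 ?_) hB
        nlinarith [mul_le_mul_of_nonneg_left h5 (sub_nonneg.2 hH),
          mul_le_mul_of_nonneg_right hz h6]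
  · have h7 : Real.pi ^ 2 / 6 ≤ 2 := by nlinarith [Real.pi_lt_d2, Real.pi_pos]
    have h8 : 0 ≤ B * Real.exp ((2 - H) * Real.log N₂) := by positivity
    nlinarith

theorem norm_Rs {r : ℕ → ℂ} (hr : ∀ n, ‖r n‖ ≤ 1) {N : ℕ} (hN : 1 ≤ N) (z : ℂ)
    (hz : z.im ≤ -(1 / 2)) : ‖Rs r N z‖ ≤ Real.exp ((1 / 2 - z.im) * Real.log N) := by
  have hp : (0 : ℝ) < N := Nat.cast_pos.2 hN
  unfold Rs
  refine (norm_sum_le _ _).trans ((Finset.sum_le_card_nsmul _ _
    (Real.exp ((-(1 / 2) - z.im) * Real.log N)) fun n hn => ?_).trans (le_of_eq ?_))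
  · rw [Finset.mem_Icc] at hn
    have h1 : -(1 / 2 + -I * z).re = -(1 / 2) - z.im := by
      simp
      ring
    rw [norm_mul, norm_np, h1, RCLike.norm_conj]
    refine (mul_le_of_le_one_left (Real.exp_pos _).le (hr n)).trans (Real.exp_le_exp.2 ?_)
    exact mul_le_mul_of_nonneg_left
      (Real.log_le_log (Nat.cast_pos.2 hn.1) (Nat.cast_le.2 hn.2)) (by linarith)
  · rw [nsmul_eq_mul, Nat.card_Icc, Nat.add_sub_cancel,
      show (1 / 2 - z.im) * Real.log N = Real.log N + (-(1 / 2) - z.im) * Real.log N by ring,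
      Real.exp_add, Real.exp_log hp]

theorem norm_dp {r : ℕ → ℂ} (hr : ∀ n, ‖r n‖ ≤ 1) (N : ℕ) (z : ℂ) (hz : z.im ≤ -(1 / 2)) :
    ‖dp r N z‖ ≤ 1 + Real.log N := by
  refine le_trans ?_ (harmonic_le_one_add_log N)
  rw [harmonic_eq_sum_Icc]
  push_cast
  unfold dp ds
  refine norm_sum_le_of_le _ fun n hn => ?_
  rw [Finset.mem_Icc] at hn
  have hp : (0 : ℝ) < n := Nat.cast_pos.2 hn.1
  rw [norm_mul, norm_np, re_s]
  refine (mul_le_of_le_one_left (Real.exp_pos _).le (hr n)).trans ?_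
  rw [← Real.exp_log (inv_pos.2 hp), Real.log_inv]
  refine Real.exp_le_exp.2 ?_
  nlinarith [Real.log_natCast_nonneg n]

end Pool.Agent.MP_ca0a54_nt.H10
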