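import Pool.Agent.MP_ca0a54_nt.H24.Spec

/-! Bounded holomorphic functions on horizontal strips, weighted by a Gaussian. -/

open Complex MeasureTheory Filter Topology

namespace Pool.Agent.MP_ca0a54_nt.H10

open Pool.Agent.MP_ca0a54_nt.H24

/-- The closed strip. -/
def St (a b : ℝ) : Set ℂ := {z | a ≤ z.im ∧ z.im ≤ b}

/-- Holomorphic and bounded on the closed strip. -/
def Bd (F : ℂ → ℂ) (a b : ℝ) : Prop :=
  DifferentiableOn ℂ F (St a b) ∧ ∃ M : ℝ, 0 ≤ M ∧ ∀ z ∈ St a b, ‖F z‖ ≤ M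

/-- The Gaussian weight. -/
noncomputable def ga (t : ℝ) (z : ℂ) : ℂ := exp (-(z - t) ^ 2)

theorem Bd.const (c : ℂ) (a b : ℝ) : Bd (fun _ => c) a b :=
  ⟨differentiableOn_const c, ‖c‖, norm_nonneg _, fun _ _ => le_rfl⟩

theorem Bd.add {F G : ℂ → ℂ} {a b : ℝ} (hF : Bd F a b) (hG : Bd G a b) :
    Bd (fun z => F z + G z) a b := by
  obtain ⟨d1, M, h0, h1⟩ := hF
  obtain ⟨d2, M', h0', h2⟩ := hG
  exact ⟨d1.add d2, M + M', add_nonneg h0 h0', fun z hz =>
    (norm_add_le _ _).trans (add_le_add (h1 z hz) (h2 z hz))⟩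

theorem Bd.sub {F G : ℂ → ℂ} {a b : ℝ} (hF : Bd F a b) (hG : Bd G a b) :
    Bd (fun z => F z - G z) a b := by
  obtain ⟨d1, M, h0, h1⟩ := hF
  obtain ⟨d2, M', h0', h2⟩ := hG
  exact ⟨d1.sub d2, M + M', add_nonneg h0 h0', fun z hz =>
    (norm_sub_le _ _).trans (add_le_add (h1 z hz) (h2 z hz))⟩

theorem Bd.mul {F G : ℂ → ℂ} {a b : ℝ} (hF : Bd F a b) (hG : Bd G a b) :
    Bd (fun z => F z * G z) a b := by
  obtain ⟨d1, M, h0, h1⟩ := hF
  obtain ⟨d2, M', h0', h2⟩ := hG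
  refine ⟨d1.mul d2, M * M', mul_nonneg h0 h0', fun z hz => ?_⟩
  rw [norm_mul]
  exact mul_le_mul (h1 z hz) (h2 z hz) (norm_nonneg _) h0

theorem Bd.sum {ι : Type*} (S : Finset ι) {F : ι → ℂ → ℂ} {a b : ℝ}
    (h : ∀ i ∈ S, Bd (F i) a b) : Bd (fun z => ∑ i ∈ S, F i z) a b := by
  classical
  induction S using Finset.induction_on with
  | empty => simpa using Bd.const 0 a b
  | insert i S hi ih =>
    simp only [Finset.sum_insert hi]
    exact (h i (Finset.mem_insert_self _ _)).add (ih fun j hj => h j (Finset.mem_insert_of_mem hj))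

theorem Bd.mono {F : ℂ → ℂ} {a b a' b' : ℝ} (hF : Bd F a b) (ha : a ≤ a') (hb : b' ≤ b) :
    Bd F a' b' := by
  obtain ⟨d1, M, h0, h1⟩ := hF
  have hs : St a' b' ⊆ St a b := fun z hz => ⟨ha.trans hz.1, hz.2.trans hb⟩
  exact ⟨d1.mono hs, M, h0, fun z hz => h1 z (hs hz)⟩

theorem norm_np (z : ℂ) (n : ℕ) : ‖np z n‖ = Real.exp (-z.re * Real.log n) := by
  unfold np
  rw [norm_exp, mul_re, ofReal_re, ofReal_im, neg_re, mul_zero, sub_zero]

theorem bd_np (α β : ℂ) (hβ : β.re = 0) (n : ℕ) (a b : ℝ) :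
    Bd (fun z => np (α + β * z) n) a b := by
  refine ⟨?_, Real.exp ((|α.re| + |β.im| * (|a| + |b|)) * Real.log n), (Real.exp_pos _).le,
    fun z hz => ?_⟩
  · unfold np
    exact Differentiable.differentiableOn (by fun_prop)
  · rw [norm_np]
    refine Real.exp_le_exp.2 (mul_le_mul_of_nonneg_right ?_ (Real.log_natCast_nonneg n))
    have h1 : (α + β * z).re = α.re - β.im * z.im := by simp [hβ]; ring
    have h2 : |z.im| ≤ |a| + |b| := by
      rw [abs_le]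
      constructor
      · linarith [hz.1, neg_abs_le a, abs_nonneg b]
      · linarith [hz.2, le_abs_self b, abs_nonneg a]
    have h3 : β.im * z.im ≤ |β.im| * (|a| + |b|) := by
      refine (le_abs_self _).trans ?_
      rw [abs_mul]
      exact mul_le_mul_of_nonneg_left h2 (abs_nonneg _)
    rw [h1]
    linarith [neg_abs_le α.re]

theorem bd_inv (v γ : ℝ) (hγ : γ ≠ 0) : Bd (fun z => (z - (v : ℂ))⁻¹) γ γ := by
  have key : ∀ z ∈ St γ γ, |γ| ≤ ‖z - (v : ℂ)‖ := fun z hz => by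
    have h : (z - (v : ℂ)).im = γ := by simpa using le_antisymm hz.2 hz.1
    rw [← h]
    exact abs_im_le_norm _
  have hp : 0 < |γ| := abs_pos.2 hγ
  refine ⟨?_, |γ|⁻¹, inv_nonneg.2 hp.le, fun z hz => ?_⟩
  · refine DifferentiableOn.inv (Differentiable.differentiableOn (by fun_prop)) fun z hz h => ?_
    have := key z hz
    rw [h, norm_zero] at this
    linarith
  · rw [norm_inv]
    exact inv_anti₀ hp (key z hz)

theorem norm_ga (t : ℝ) (z : ℂ) : ‖ga t z‖ = Real.exp (z.im ^ 2 - (z.re - t) ^ 2) := by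
  unfold ga
  rw [norm_exp]
  congr 1
  simp [pow_two]

theorem ga_diff (t : ℝ) : Differentiable ℂ (ga t) := by
  unfold ga
  fun_prop

theorem Bd.decay {F : ℂ → ℂ} {a b : ℝ} (hF : Bd F a b) (t : ℝ) :
    ∃ M : ℝ, ∀ z : ℂ, a ≤ z.im → z.im ≤ b →
      ‖F z * ga t z‖ ≤ M * Real.exp (-(z.re - t) ^ 2 / 2) := by
  obtain ⟨-, M, h0, h1⟩ := hF
  refine ⟨M * Real.exp (a ^ 2 + b ^ 2), fun z ha hb => ?_⟩
  rw [norm_mul, norm_ga, mul_assoc, ← Real.exp_add]
  refine mul_le_mul (h1 z ⟨ha, hb⟩) (Real.exp_le_exp.2 ?_) (Real.exp_pos _).le h0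
  have h2 : z.im ^ 2 ≤ a ^ 2 + b ^ 2 := by
    rcases le_total 0 z.im with h | h
    · nlinarith [sq_nonneg a]
    · nlinarith [sq_nonneg b]
  nlinarith [sq_nonneg (z.re - t)]

theorem Bd.cont {F : ℂ → ℂ} {γ : ℝ} (hF : Bd F γ γ) :
    Continuous fun x : ℝ => F (x + γ * I) := by
  refine hF.1.continuousOn.comp_continuous (by fun_prop) fun x => ?_
  simp [St]

theorem gauss_int (t : ℝ) : Integrable fun x : ℝ => Real.exp (-(3 / 4) * (x - t) ^ 2) :=
  (integrable_exp_neg_mul_sq (by norm_num : (0 : ℝ) < 3 / 4)).comp_sub_right t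

/-- The integral of the majorant. -/
noncomputable def K0 : ℝ := ∫ x : ℝ, Real.exp (-(3 / 4) * x ^ 2)

theorem K0_nonneg : 0 ≤ K0 := integral_nonneg fun _ => (Real.exp_pos _).le

theorem pt_bound {F : ℂ → ℂ} {γ t B : ℝ}
    (h : ∀ x : ℝ, ‖F (x + γ * I)‖ ≤ B * Real.exp ((x - t) ^ 2 / 4)) (x : ℝ) :
    ‖F (x + γ * I) * ga t (x + γ * I)‖ ≤
      B * Real.exp (γ ^ 2) * Real.exp (-(3 / 4) * (x - t) ^ 2) := by
  rw [norm_mul, norm_ga]
  refine (mul_le_mul_of_nonneg_right (h x) (Real.exp_pos _).le).trans (le_of_eq ?_)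
  rw [mul_assoc, mul_assoc, ← Real.exp_add, ← Real.exp_add]
  congr 2
  simp
  ring

theorem Bd.intg {F : ℂ → ℂ} {γ : ℝ} (hF : Bd F γ γ) (t : ℝ) :
    Integrable fun x : ℝ => F (x + γ * I) * ga t (x + γ * I) := by
  have hc := hF.cont
  obtain ⟨-, M, h0, h1⟩ := hF
  refine Integrable.mono' ((gauss_int t).const_mul (M * Real.exp (γ ^ 2)))
    (hc.mul ((ga_diff t).continuous.comp (by fun_prop))).aestronglyMeasurable
    (Eventually.of_forall (pt_bound fun x => ?_))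
  refine (h1 _ (by simp [St])).trans (le_mul_of_one_le_right h0 (Real.one_le_exp ?_))
  positivity

/-- The weighted integral on the line `im z = γ`. -/
noncomputable def li (F : ℂ → ℂ) (t γ : ℝ) : ℂ := ∫ x : ℝ, F (x + γ * I) * ga t (x + γ * I)

theorem li_bound {F : ℂ → ℂ} {γ t B : ℝ}
    (h : ∀ x : ℝ, ‖F (x + γ * I)‖ ≤ B * Real.exp ((x - t) ^ 2 / 4)) :
    ‖li F t γ‖ ≤ B * Real.exp (γ ^ 2) * K0 := by
  refine (norm_integral_le_of_norm_le ((gauss_int t).const_mul (B * Real.exp (γ ^ 2)))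
    (Eventually.of_forall (pt_bound h))).trans (le_of_eq ?_)
  rw [integral_const_mul, K0,
    integral_sub_right_eq_self (fun x : ℝ => Real.exp (-(3 / 4) * x ^ 2)) t]

theorem li_add {F G : ℂ → ℂ} {γ : ℝ} (hF : Bd F γ γ) (hG : Bd G γ γ) (t : ℝ) :
    li (fun z => F z + G z) t γ = li F t γ + li G t γ := by
  unfold li
  rw [← integral_add (hF.intg t) (hG.intg t)]
  simp only [add_mul]

theorem li_sum {ι : Type*} (S : Finset ι) {F : ι → ℂ → ℂ} {γ : ℝ}
    (h : ∀ i ∈ S, Bd (F i) γ γ) (t : ℝ) :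
    li (fun z => ∑ i ∈ S, F i z) t γ = ∑ i ∈ S, li (F i) t γ := by
  unfold li
  rw [← integral_finsetSum S fun i hi => (h i hi).intg t]
  simp only [Finset.sum_mul]

theorem li_smul (c : ℂ) (F : ℂ → ℂ) (t γ : ℝ) : li (fun z => c * F z) t γ = c * li F t γ := by
  unfold li
  rw [← integral_const_mul]
  simp only [mul_assoc]

theorem li_shift (hs : ShiftStmt) {F : ℂ → ℂ} {a b : ℝ} (hab : a ≤ b) (hF : Bd F a b) (t : ℝ) :
    li F t a = li F t b := by
  obtain ⟨M, hM⟩ := hF.decay t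
  exact hs (fun z => F z * ga t z) a b M t hab (hF.1.mul (ga_diff t).differentiableOn) hM

theorem li_pole (hp : PoleStmt) {F : ℂ → ℂ} {c : ℝ} (hc : 0 < c) (hF : Bd F (-c) c) (t v : ℝ) :
    li (fun z => (z - (v : ℂ))⁻¹ * F z) t (-c) - li (fun z => (z - (v : ℂ))⁻¹ * F z) t c =
      2 * Real.pi * I * (F v * ga t v) := by
  obtain ⟨M, hM⟩ := hF.decay t
  have := hp (fun z => F z * ga t z) (-c) c M t v (by simpa using hc) (by simpa using hc)
    (hF.1.mul (ga_diff t).differentiableOn) hM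
  rw [← this]
  unfold li
  simp only [div_eq_inv_mul, mul_assoc]

theorem li_conj {F : ℂ → ℂ} (hF : ∀ z, (starRingEnd ℂ) (F z) = F ((starRingEnd ℂ) z)) (t c : ℝ) :
    (starRingEnd ℂ) (li F t (-c)) = li F t c := by
  unfold li
  rw [← integral_conj]
  congr 1
  funext x
  have h : (starRingEnd ℂ) ((x : ℂ) + ((-c : ℝ) : ℂ) * I) = x + c * I := by simp
  rw [map_mul, hF, h]
  congr 1
  unfold ga
  rw [← exp_conj, map_neg, map_pow, map_sub, h, conj_ofReal]

theorem ev_pow (C δ : ℝ) (hδ : 0 < δ) (k : ℕ) :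
    ∀ᶠ L : ℝ in atTop, C * L ^ k ≤ Real.exp (δ * L) := by
  have h := (tendsto_rpow_mul_exp_neg_mul_atTop_nhds_zero (k : ℝ) δ hδ).const_mul C
  rw [mul_zero] at h
  filter_upwards [h.eventually (gt_mem_nhds zero_lt_one), eventually_gt_atTop (0 : ℝ)] with L h1 h2
  rw [Real.rpow_natCast, neg_mul, Real.exp_neg, ← mul_assoc,
    mul_inv_lt_iff₀ (Real.exp_pos _), one_mul] at h1
  exact h1.le

end Pool.Agent.MP_ca0a54_nt.H10
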